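import Pool.Agent.H933.EP.Stm
import Pool.Agent.H253.LL.Mean

/-!
# Project EP (helper933), task P_glue2: from the points of the spectrum to the plane
-/

set_option autoImplicit false

open MeasureTheory Metric
open scoped Real ENNReal

namespace Pool.Agent.H962.EP

open Pool.Agent.H933.LL Pool.Agent.H933.EP

theorem posLog_le_sq {t : ℝ} (ht : 0 ≤ t) : Real.posLog t ≤ t ^ 2 := by
  rw [Real.posLog_apply]
  refine max_le (sq_nonneg t) ?_
  rcases eq_or_lt_of_le ht with h | h
  · rw [← h, Real.log_zero]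
    norm_num
  · have := Real.log_le_sub_one_of_pos h
    nlinarith [sq_nonneg (t - 1)]

theorem le_exp_posLog {t : ℝ} (ht : 0 ≤ t) : t ≤ Real.exp (Real.posLog t) := by
  rcases eq_or_lt_of_le ht with h | h
  · rw [← h]
    exact (Real.exp_pos _).le
  · calc t = Real.exp (Real.log t) := (Real.exp_log h).symm
      _ ≤ _ := Real.exp_le_exp.2 (by rw [Real.posLog_apply]; exact le_max_right _ _)

/-- bounded weights have Domar's property -/
theorem dom_bdd (M : ℂ → ℝ) (U : Set ℂ) (B : ℝ) (h : ∀ z ∈ U, 1 ≤ M z ∧ M z ≤ B) : Dom M U := by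
  intro I ρ hI hρ
  refine ⟨Real.exp (B ^ 2 * I / (π * ρ ^ 2)), ?_⟩
  intro g W z₀ hW hbW hbU hg hint
  have hmean := Pool.Agent.H253.LL.p_mean g W z₀ ρ hW hρ hbW hg
  have hcont : ContinuousOn (fun z => Real.posLog ‖g z‖) (closedBall z₀ ρ) :=
    Real.continuous_posLog.comp_continuousOn ((hg.continuousOn.mono hbW).norm)
  have hintg : IntegrableOn (fun z => Real.posLog ‖g z‖) (ball z₀ ρ) :=
    (hcont.integrableOn_compact (isCompact_closedBall z₀ ρ)).mono_set ball_subset_closedBall
  have h1 : ENNReal.ofReal (∫ z in ball z₀ ρ, Real.posLog ‖g z‖) ≤ ENNReal.ofReal (B ^ 2 * I) := by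
    rw [ofReal_integral_eq_lintegral_ofReal hintg (ae_of_all _ fun z => Real.posLog_nonneg)]
    calc ∫⁻ z in ball z₀ ρ, ENNReal.ofReal (Real.posLog ‖g z‖)
        ≤ ∫⁻ z in ball z₀ ρ, ENNReal.ofReal (B ^ 2) * ENNReal.ofReal ((‖g z‖ / M z) ^ 2) := by
          refine setLIntegral_mono' measurableSet_ball fun z hz => ?_
          rw [← ENNReal.ofReal_mul (sq_nonneg B)]
          apply ENNReal.ofReal_le_ofReal
          obtain ⟨m1, m2⟩ := h z (hbU (ball_subset_closedBall hz))
          have h2 := posLog_le_sq (norm_nonneg (g z))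
          refine h2.trans ?_
          have hM : 0 < M z := by linarith
          rw [div_pow, mul_div_assoc', le_div_iff₀ (by positivity), mul_comm]
          have h3 : M z ^ 2 ≤ B ^ 2 := by nlinarith
          exact mul_le_mul_of_nonneg_right h3 (sq_nonneg _)
      _ = ENNReal.ofReal (B ^ 2) * ∫⁻ z in ball z₀ ρ, ENNReal.ofReal ((‖g z‖ / M z) ^ 2) :=
          lintegral_const_mul' _ _ ENNReal.ofReal_ne_top
      _ ≤ ENNReal.ofReal (B ^ 2) * ENNReal.ofReal I := by gcongr
      _ = _ := (ENNReal.ofReal_mul (sq_nonneg B)).symm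
  have h2 : ∫ z in ball z₀ ρ, Real.posLog ‖g z‖ ≤ B ^ 2 * I :=
    (ENNReal.ofReal_le_ofReal_iff (by positivity)).1 h1
  have h3 : Real.posLog ‖g z₀‖ ≤ B ^ 2 * I / (π * ρ ^ 2) := by
    rw [le_div_iff₀ (by positivity)]
    linarith
  exact (le_exp_posLog (norm_nonneg _)).trans (Real.exp_le_exp.2 h3)

/-- Domar's property is local -/
theorem dom_glue (M : ℂ → ℝ) (K U : Set ℂ) (hK : IsCompact K) (hUK : U ⊆ K)
    (h : ∀ l, ∃ r : ℝ, 0 < r ∧ Dom M (ball l r)) : Dom M U := by
  intro I ρ hI hρ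
  choose r hr hd using h
  choose C hC using fun l => hd l I (min ρ (r l / 2)) hI (lt_min hρ (half_pos (hr l)))
  obtain ⟨t, -, ht⟩ := hK.elim_nhds_subcover (fun l => ball l (r l / 2))
    fun l _ => ball_mem_nhds l (half_pos (hr l))
  refine ⟨∑ l ∈ t, |C l|, ?_⟩
  intro g W z₀ hW hbW hbU hg hint
  have hz : z₀ ∈ K := hUK (hbU (mem_closedBall_self hρ.le))
  obtain ⟨l, hl⟩ := Set.mem_iUnion.1 (ht hz)
  obtain ⟨hlt, hzl⟩ := Set.mem_iUnion.1 hl
  have h1 : ‖g z₀‖ ≤ C l := by
    refine hC l g W z₀ hW ((closedBall_subset_closedBall (min_le_left _ _)).trans hbW) ?_ hg ?_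
    · intro z hz'
      rw [mem_closedBall] at hz'
      have h2 : dist z z₀ ≤ r l / 2 := hz'.trans (min_le_right _ _)
      have h3 : dist z₀ l < r l / 2 := hzl
      rw [mem_ball]
      linarith [dist_triangle z z₀ l]
    · exact (lintegral_mono_set (ball_subset_ball (min_le_left _ _))).trans hint
  refine h1.trans ((le_abs_self _).trans ?_)
  exact Finset.single_le_sum (f := fun l => |C l|) (fun _ _ => abs_nonneg _) hlt

/-- **P_glue2** -/
theorem p_glue2 : P_glue2 := by
  intro X _ _ _ T hT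
  constructor
  · refine measure_null_of_locally_null _ fun l hl => ?_
    obtain ⟨r, hr, h0, -⟩ := hT l hl
    exact ⟨spectrum ℂ T ∩ ball l r,
      Filter.inter_mem self_mem_nhdsWithin (mem_nhdsWithin_of_mem_nhds (ball_mem_nhds l hr)), h0⟩
  · intro R
    refine dom_glue _ (closedBall 0 R) (ball 0 R) (isCompact_closedBall _ _)
      ball_subset_closedBall fun l => ?_
    by_cases hl : l ∈ spectrum ℂ T
    · obtain ⟨r, hr, -, hd⟩ := hT l hl
      exact ⟨r, hr, hd⟩
    · have hl' : l ∈ resolventSet ℂ T := by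
        by_contra h
        exact hl h
      have hc : ContinuousAt (fun z => ‖resolvent T z‖) l :=
        (spectrum.hasDerivAt_resolvent_const_left hl').continuousAt.norm
      obtain ⟨δ, hδ, hb⟩ := Metric.continuousAt_iff.1 hc 1 one_pos
      refine ⟨δ, hδ, dom_bdd _ _ (‖resolvent T l‖ + 2) fun z hz => ?_⟩
      have h1 := hb (mem_ball.1 hz)
      rw [Real.dist_eq] at h1
      have h2 := (abs_lt.1 h1).2
      constructor
      · linarith [norm_nonneg (resolvent T z)]
      · linarith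

end Pool.Agent.H962.EP
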